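import Pool.Agent.H424.PJ.Directions
import Pool.Graph.R_seed8.Y881.BI.Final

/-!
# Subsets of the sets `X + t Y`: fewer than `p ^ ε` exceptional directions

Let `X` be a set of at least `p ^ κ` residues and `Y` a set of at least `p ^ (1 / 2 - c)` residues,
`c = c (ε)`, so that the sets `X + t Y` may have fewer than `p ^ (1 / 2)` elements. For all `t`
outside a set of at most `p ^ ε` exceptions (which depends on `X`, `Y` and the character) all dense
subsets of `X + t Y` satisfy the inequality of the question.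

Outline. For a fixed `X` the shifts `s`, for which the form with the kernel `χ (x - x' + s)` over
`X × X` has no power saving for some weights, form a set `Z` of at most `p ^ (1 / 2 + ε')` elements,
by Weil's bound for high moments. A dense subset of `X + t Y` can violate the inequality only if
`t (y - y')` belongs to `Z` for many pairs `(y, y')`. This happens for few `t` only, by a form of the
sum-product theorem in affine groups (starting files).
-/

set_option autoImplicit false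

namespace Pool.Agent.Results.MP_cb27ba_nt.FewDirections

open Finset

/-- the number of `(x, y) ∈ X × Y` with `x + t y = a` -/
def reps {p : ℕ} (X Y : Finset (ZMod p)) (t a : ZMod p) : ℕ :=
  ((X ×ˢ Y).filter fun u => u.1 + t * u.2 = a).card

/-- For every `ε > 0` there is `c > 0` such that for every `κ > 0` there are `τ > 0` and `p₀` with the
following property for all primes `p ≥ p₀` and all nonprincipal characters `χ` modulo `p`. Let `X`
have at least `p ^ κ` elements and `Y` at least `p ^ (1 / 2 - c)` elements. For all `t` outside a set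
of at most `p ^ ε` elements, let `ρ > 0` and let `A` be a set all elements of which have at least
`ρ |X|` representations `x + t y`, where `|Y| ≤ ρ p ^ τ |A|` (for `ρ = 1 / |X|`: any
`A ⊆ X + t Y` with `|A| ≥ p ^ (- τ) |X| |Y|`). Then the forms with the kernel `χ (a - b)` over
`A × A` have a power saving, and `A` and its images under fractional linear maps satisfy the
inequality of the question. -/
theorem result : ∀ ε : ℝ, 0 < ε → ∃ c : ℝ, 0 < c ∧ ∀ κ : ℝ, 0 < κ → ∃ τ : ℝ, 0 < τ ∧ ∃ p₀ : ℕ,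
    ∀ p : ℕ, p.Prime → p₀ ≤ p → ∀ χ : DirichletCharacter ℂ p, χ ≠ 1 →
    ∀ X Y : Finset (ZMod p), (p : ℝ) ^ κ ≤ X.card → (p : ℝ) ^ (1 / 2 - c) ≤ Y.card →
    ∃ Θ : Finset (ZMod p), (Θ.card : ℝ) ≤ (p : ℝ) ^ ε ∧ ∀ t ∉ Θ,
    ∀ (A : Finset (ZMod p)) (ρ : ℝ), 0 < ρ → (Y.card : ℝ) ≤ ρ * ((p : ℝ) ^ τ * A.card) →
      (∀ a ∈ A, ρ * X.card ≤ (reps X Y t a : ℝ)) →
      (∀ f g : ZMod p → ℂ, ‖∑ a ∈ A, ∑ b ∈ A, f a * g b * χ (a - b)‖ ≤
        (p : ℝ) ^ (-τ) * A.card * (Real.sqrt (∑ a ∈ A, ‖f a‖ ^ 2) * Real.sqrt (∑ b ∈ A, ‖g b‖ ^ 2))) ∧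
      ∀ α β γ δ : ZMod p, α * δ - β * γ ≠ 0 → (∀ a ∈ A, γ * a + δ ≠ 0) →
        ∀ C : Finset (ZMod p), C = (A.image fun a => (α * a + β) * (γ * a + δ)⁻¹) →
          ‖∑ x ∈ C, ∑ y ∈ C, χ (x - y)‖ < (C.card : ℝ) ^ (2 - τ) := by
  classical
  intro ε hε
  obtain ⟨c, hc0, hc16, p₁, hdir⟩ := Pool.Agent.H424.PJ.few_directions ε hε
  refine ⟨c, hc0, fun κ hκ => ?_⟩
  obtain ⟨τ, hτ, p₂, hmain⟩ := Pool.Agent.H424.PJ.main_fixed (min κ c) (lt_min hκ hc0)
  refine ⟨τ / 4, by positivity, p₁ + p₂, ?_⟩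
  intro p hpp hp χ hχ X Y hX hY
  have hF : Fact p.Prime := ⟨hpp⟩
  have hp1 : (1 : ℝ) < p := by exact_mod_cast hpp.one_lt
  have hpR : (1 : ℝ) ≤ p := hp1.le
  have hp0 : (0 : ℝ) < p := by linarith
  have hmono : ∀ x y : ℝ, x ≤ y → (p : ℝ) ^ x ≤ (p : ℝ) ^ y := fun x y h =>
    Real.rpow_le_rpow_of_exponent_le hpR h
  set T : Finset (ZMod p × ZMod p) := X.image fun x => ((1 : ZMod p), x) with hT
  have hinj : Function.Injective fun x : ZMod p => ((1 : ZMod p), x) := fun x y h =>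
    (Prod.ext_iff.1 h).2
  have hTc : T.card = X.card := card_image_of_injective _ hinj
  have hgood : Pool.Agent.H424.PJ.Good ((0 : ZMod p) + 0) (0 * 0 - 1 * 0) T := by
    refine ⟨fun g hg => ?_, fun g hg h hh hne => ?_⟩
    · obtain ⟨x, _, rfl⟩ := mem_image.1 hg
      unfold Pool.Agent.H424.PJ.dtm
      simp
    · obtain ⟨x, _, rfl⟩ := mem_image.1 hg
      obtain ⟨y, _, rfl⟩ := mem_image.1 hh
      unfold Pool.Agent.H424.PJ.cf
      simp only [one_mul, mul_one]
      intro h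
      apply hne
      rw [sub_eq_zero.1 h]
  have hTl : (p : ℝ) ^ (min κ c) ≤ T.card := by
    rw [hTc]
    exact (hmono _ _ (min_le_left _ _)).trans hX
  obtain ⟨W, hW, hbound⟩ := hmain p (by omega) χ hχ 0 1 0 0 T T hgood hgood hTl hTl
  obtain ⟨Θ, hΘ0, hΘc, hΘ⟩ := hdir p (by omega) Y (W.image fun w => -w⁻¹) hY
    (by
      have h1 : ((W.image fun w : ZMod p => -w⁻¹).card : ℝ) ≤ W.card := by
        exact_mod_cast card_image_le
      exact h1.trans (hW.trans (hmono _ _ (by linarith [min_le_right κ c]))))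
  refine ⟨Θ, hΘc, ?_⟩
  intro t ht A ρ hρ hYA hrep
  have ht0 : t ≠ 0 := fun h => ht (h ▸ hΘ0)
  set P : Finset (ZMod p) := Y.image fun y => t * y with hP
  have hinjt : Function.Injective fun y : ZMod p => t * y := fun a b h => mul_left_cancel₀ ht0 h
  have hPc : P.card = Y.card := card_image_of_injective _ hinjt
  have hnm : ∀ (x : ZMod p) (z : ZMod p), Pool.Agent.H424.PJ.nm 0 1 ((1 : ZMod p), x) z = x + z := by
    intro x z
    unfold Pool.Agent.H424.PJ.nm
    ring
  have hdn : ∀ (x : ZMod p) (z : ZMod p), Pool.Agent.H424.PJ.dn 0 0 ((1 : ZMod p), x) z = 1 := by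
    intro x z
    unfold Pool.Agent.H424.PJ.dn
    ring
  have hRep : ∀ a, (Pool.Agent.H424.PJ.Rep 0 1 0 0 T P a).card = reps X Y t a := by
    intro a
    unfold reps Pool.Agent.H424.PJ.Rep
    symm
    refine card_bij (fun u _ => (((1 : ZMod p), u.1), t * u.2)) ?_ ?_ ?_
    · intro u hu
      have h1 := mem_filter.1 hu
      have h2 := mem_product.1 h1.1
      refine mem_filter.2 ⟨mem_product.2 ⟨mem_image_of_mem _ h2.1, mem_image_of_mem _ h2.2⟩, ?_, ?_⟩
      · show Pool.Agent.H424.PJ.dn 0 0 ((1 : ZMod p), u.1) (t * u.2) ≠ 0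
        rw [hdn]
        exact one_ne_zero
      · show Pool.Agent.H424.PJ.nm 0 1 ((1 : ZMod p), u.1) (t * u.2) =
          a * Pool.Agent.H424.PJ.dn 0 0 ((1 : ZMod p), u.1) (t * u.2)
        rw [hdn, hnm, mul_one]
        exact h1.2
    · intro u _ v _ h
      simp only [Prod.mk.injEq, true_and] at h
      exact Prod.ext h.1 (hinjt h.2)
    · intro v hv
      have h1 := mem_filter.1 hv
      have h2 := mem_product.1 h1.1
      obtain ⟨x, hx, hx2⟩ := mem_image.1 h2.1
      obtain ⟨y, hy, hy2⟩ := mem_image.1 h2.2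
      refine ⟨(x, y), mem_filter.2 ⟨mem_product.2 ⟨hx, hy⟩, ?_⟩, ?_⟩
      · have h3 := h1.2.2
        rw [← hx2, ← hy2, hdn, hnm, mul_one] at h3
        exact h3
      · exact Prod.ext hx2 hy2
  have hconc : ((Pool.Agent.H424.PJ.conc 0 1 0 0 P P W).card : ℝ) ≤
      (p : ℝ) ^ (-(min κ c)) * (P.card * P.card) := by
    have h1 : (Pool.Agent.H424.PJ.conc 0 1 0 0 P P W).card ≤
        ((Y ×ˢ Y).filter fun u => u.1 = u.2 ∨ t * (u.1 - u.2) ∈ W.image fun w => -w⁻¹).card := by
      refine (card_le_card ?_).trans (card_image_le (f := fun u : ZMod p × ZMod p =>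
        (t * u.1, t * u.2)))
      intro v hv
      have h2 := mem_filter.1 hv
      obtain ⟨y, hy, hy2⟩ := mem_image.1 (mem_product.1 h2.1).1
      obtain ⟨z, hz, hz2⟩ := mem_image.1 (mem_product.1 h2.1).2
      refine mem_image.2 ⟨(y, z), mem_filter.2 ⟨mem_product.2 ⟨hy, hz⟩, ?_⟩, Prod.ext hy2 hz2⟩
      rcases h2.2 with h3 | h3
      · left
        rw [← hy2, ← hz2] at h3
        exact hinjt h3
      · right
        refine mem_image.2 ⟨_, h3, ?_⟩
        unfold Pool.Agent.H424.PJ.ivr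
        rw [← hy2, ← hz2]
        simp only [zero_mul, add_zero, zero_sub, sub_zero]
        rw [neg_div, one_div, inv_neg, inv_inv, neg_neg, mul_sub]
    have h2 := hΘ t ht
    rw [hPc]
    calc ((Pool.Agent.H424.PJ.conc 0 1 0 0 P P W).card : ℝ)
        ≤ (((Y ×ˢ Y).filter fun u => u.1 = u.2 ∨
            t * (u.1 - u.2) ∈ W.image fun w => -w⁻¹).card : ℝ) := by exact_mod_cast h1
      _ ≤ (p : ℝ) ^ (-c) * (Y.card * Y.card) := h2
      _ ≤ _ := mul_le_mul_of_nonneg_right (hmono _ _ (by linarith [min_le_right κ c]))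
          (by positivity)
  have hτ4 : (p : ℝ) ^ (τ / 4) ≤ (p : ℝ) ^ τ := hmono _ _ (by linarith)
  have hPA : (P.card : ℝ) ≤ ρ * ((p : ℝ) ^ τ * A.card) := by
    rw [hPc]
    exact hYA.trans (mul_le_mul_of_nonneg_left
      (mul_le_mul_of_nonneg_right hτ4 (Nat.cast_nonneg _)) hρ.le)
  have hall : ∀ f g : ZMod p → ℂ, ‖∑ a ∈ A, ∑ b ∈ A, f a * g b * χ (a - b)‖ ≤
      (p : ℝ) ^ (-τ) * A.card *
        (Real.sqrt (∑ a ∈ A, ‖f a‖ ^ 2) * Real.sqrt (∑ b ∈ A, ‖g b‖ ^ 2)) := by
    intro f g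
    have h1 := hbound P P A A ρ ρ hρ hρ
      (fun a ha => by rw [hRep, hTc]; exact hrep a ha)
      (fun a ha => by rw [hRep, hTc]; exact hrep a ha) hPA hPA hconc f g
    rw [Real.mul_self_sqrt (Nat.cast_nonneg _), ← mul_assoc] at h1
    exact h1
  have hA0 : (0 : ℝ) < A.card := by
    by_contra h
    have h1 : (A.card : ℝ) = 0 := le_antisymm (not_lt.1 h) (Nat.cast_nonneg _)
    rw [h1, mul_zero, mul_zero] at hYA
    have h2 : (0 : ℝ) < Y.card := lt_of_lt_of_le (by positivity) hY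
    linarith
  refine ⟨fun f g => ?_, fun α β γ δ hdet hpole C hC => ?_⟩
  · refine (hall f g).trans (mul_le_mul_of_nonneg_right (mul_le_mul_of_nonneg_right ?_
      (Nat.cast_nonneg _)) (by positivity))
    exact hmono _ _ (by linarith)
  · obtain ⟨h1, h2⟩ := Pool.Agent.Y881.BI.mob_sum χ A ((p : ℝ) ^ (-τ) * A.card)
      (by positivity) hall α β γ δ hdet hpole C hC
    have hA'p : (A.card : ℝ) ≤ p := by
      have := card_le_univ A
      rw [ZMod.card] at this
      exact_mod_cast this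
    rw [h1]
    refine lt_of_le_of_lt h2 ?_
    have h3 : (A.card : ℝ) ^ (τ / 4) ≤ (p : ℝ) ^ (τ / 4) :=
      Real.rpow_le_rpow hA0.le hA'p (by positivity)
    have h4 : (A.card : ℝ) ^ (2 - τ / 4) = (A.card : ℝ) ^ 2 / (A.card : ℝ) ^ (τ / 4) := by
      rw [Real.rpow_sub hA0, Real.rpow_two]
    rw [h4, lt_div_iff₀ (by positivity)]
    calc (p : ℝ) ^ (-τ) * A.card * A.card * (A.card : ℝ) ^ (τ / 4)
        ≤ (p : ℝ) ^ (-τ) * A.card * A.card * (p : ℝ) ^ (τ / 4) :=
          mul_le_mul_of_nonneg_left h3 (by positivity)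
      _ = (p : ℝ) ^ (-τ + τ / 4) * (A.card : ℝ) ^ 2 := by
          rw [Real.rpow_add hp0]
          ring
      _ < 1 * (A.card : ℝ) ^ 2 := by
          refine mul_lt_mul_of_pos_right ?_ (by positivity)
          exact Real.rpow_lt_one_of_one_lt_of_neg hp1 (by linarith)
      _ = _ := one_mul _

end Pool.Agent.Results.MP_cb27ba_nt.FewDirections
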