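import Pool.Agent.H424.PJ.Main
import Pool.Graph.R_seed8.Y881.BI.Final

/-!
# Difference sums over popular images under commuting projective maps

Let `M` be a `2 × 2` matrix over the field with `p` elements. The invertible matrices `s + r M` act
on the projective line by a one-parameter group of projective maps: translations, dilations, the
maps conjugate to these, or a group without fixed points (a nonsplit torus).

Let `T` be an arbitrary set of at least `p ^ ε` such maps, `X` a set, and let every element of `A`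
have at least `ρ |T|` representations `g x`, `g ∈ T`, `x ∈ X`, where `|X| ≤ ρ p ^ τ |A|` (for
instance `ρ = 1 / |T|`, `A` a dense subset of the image of `T × X` when most of the points `g x` are
distinct; or `ρ = 1`, `A` a set nearly invariant under `T`).  If the pairs `(x, y) ∈ X × X` are not
concentrated on few orbits of the group, then all dense subsets of `A` satisfy the inequality of the
question.  The same is true for all unions of such sets with different `T` and `X`.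

Outline.  The kernel `χ (g x - h y)` is, up to factors depending on `x`, `y`, `(g, x)` or `(h, y)`,
equal to `χ (c w + d)`, where `w` is the invariant of the orbit of `(x, y)` and `c`, `d` are bilinear
in `g`, `h`; Weil's bound for high moments over `w` shows that the form over `T × T'` has a power
saving for all `w` outside a set with at most `p ^ (1 / 2 + ε)` elements.
-/

set_option autoImplicit false

namespace Pool.Agent.Results.MP_cb27ba_nt.ProjectiveOrbits

open Finset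

/-- the matrix `s + r M`, where `g = (s, r)` -/
def mat {p : ℕ} (M : Matrix (Fin 2) (Fin 2) (ZMod p)) (g : ZMod p × ZMod p) :
    Matrix (Fin 2) (Fin 2) (ZMod p) := g.1 • 1 + g.2 • M

/-- `a` is the image of `x` under the projective map with the matrix `N` -/
def Sends {p : ℕ} (N : Matrix (Fin 2) (Fin 2) (ZMod p)) (x a : ZMod p) : Prop :=
  N 1 0 * x + N 1 1 ≠ 0 ∧ N 0 0 * x + N 0 1 = a * (N 1 0 * x + N 1 1)

/-- the number of `(g, x) ∈ T × X` such that the projective map with the matrix `s + r M`,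
`g = (s, r)`, sends `x` to `a` -/
noncomputable def reps {p : ℕ} (M : Matrix (Fin 2) (Fin 2) (ZMod p)) (T : Finset (ZMod p × ZMod p))
    (X : Finset (ZMod p)) (a : ZMod p) : ℕ :=
  {u : (ZMod p × ZMod p) × ZMod p | u.1 ∈ T ∧ u.2 ∈ X ∧ Sends (mat M u.1) u.2 a}.ncard

/-- `T` is a set of at least `p ^ ε` matrices `s + r M`, invertible and pairwise not proportional,
and for some `ρ > 0` all elements of `A` have at least `ρ |T|` representations by `T` and `X`,
where `|X| ≤ ρ p ^ τ |A|` -/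
structure Popular (p : ℕ) (ε τ : ℝ) (M : Matrix (Fin 2) (Fin 2) (ZMod p))
    (T : Finset (ZMod p × ZMod p)) (X A : Finset (ZMod p)) : Prop where
  det : ∀ g ∈ T, (mat M g).det ≠ 0
  indep : ∀ g ∈ T, ∀ h ∈ T, g ≠ h → g.1 * h.2 ≠ g.2 * h.1
  large : (p : ℝ) ^ ε ≤ T.card
  popular : ∃ ρ : ℝ, 0 < ρ ∧ (X.card : ℝ) ≤ ρ * ((p : ℝ) ^ τ * A.card) ∧
    ∀ a ∈ A, ρ * T.card ≤ (reps M T X a : ℝ)

/-- the form `γ x y + δ x - α y - β`, where `M` is the matrix with rows `(α, β)`, `(γ, δ)` -/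
def form {p : ℕ} (M : Matrix (Fin 2) (Fin 2) (ZMod p)) (x y : ZMod p) : ZMod p :=
  M 1 0 * x * y + M 1 1 * x - M 0 0 * y - M 0 1

/-- For no set `W` of at most `p ^ (1 / 2 + ε)` elements there are more than `p ^ (- ε) |X| |Y|` pairs
`(x, y) ∈ X × Y` with `x = y` or `form M x y / (x - y) ∈ W`. (This quotient is the invariant of the
orbit of the pair `(x, y)` under the group of all projective maps with matrices `s + r M`.) -/
def Spread (p : ℕ) (ε : ℝ) (M : Matrix (Fin 2) (Fin 2) (ZMod p)) (X Y : Finset (ZMod p)) : Prop :=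
  ∀ W : Finset (ZMod p), (W.card : ℝ) ≤ (p : ℝ) ^ (1 / 2 + ε) →
    ({u : ZMod p × ZMod p | u.1 ∈ X ∧ u.2 ∈ Y ∧
      (u.1 = u.2 ∨ form M u.1 u.2 * (u.1 - u.2)⁻¹ ∈ W)}.ncard : ℝ) ≤
        (p : ℝ) ^ (-ε) * (X.card * Y.card)

/-- the energy: the number of quadruples `(x, y, x', y')` of elements of `X` such that
`(x - y) form M x' y' = (x' - y') form M x y`; the additive energy if the group consists of the
translations, the multiplicative energy if it consists of the dilations -/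
noncomputable def energy {p : ℕ} (M : Matrix (Fin 2) (Fin 2) (ZMod p)) (X : Finset (ZMod p)) : ℕ :=
  {v : (ZMod p × ZMod p) × (ZMod p × ZMod p) | v.1.1 ∈ X ∧ v.1.2 ∈ X ∧ v.2.1 ∈ X ∧ v.2.2 ∈ X ∧
    (v.1.1 - v.1.2) * form M v.2.1 v.2.2 = (v.2.1 - v.2.2) * form M v.1.1 v.1.2}.ncard

/-- pairs in few classes of an equivalence relation -/
lemma classes {σ ω : Type*} [DecidableEq σ] [DecidableEq ω] (P : Finset σ) (c : σ → ω) (W : Finset ω)
    (R : Finset (σ × σ)) (hR : ∀ u ∈ P, ∀ v ∈ P, c u = c v → (u, v) ∈ R) :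
    (((P.filter fun u => c u ∈ W).card : ℝ)) ^ 2 ≤ W.card * R.card := by
  have h1 : (P.filter fun u => c u ∈ W).card = ∑ w ∈ W, (P.filter fun u => c u = w).card := by
    have h0 := card_eq_sum_card_fiberwise (f := c) (s := P.filter fun u => c u ∈ W) (t := W)
      (fun u hu => (mem_filter.1 (mem_coe.1 hu)).2)
    rw [h0]
    refine sum_congr rfl fun w hw => ?_
    congr 1
    ext u
    rw [mem_filter, mem_filter, mem_filter]
    exact ⟨fun h => ⟨h.1.1, h.2⟩, fun h => ⟨⟨h.1, by rw [h.2]; exact hw⟩, h.2⟩⟩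
  have h2 : ∑ w ∈ W, ((P.filter fun u => c u = w).card) ^ 2 ≤ R.card := by
    calc ∑ w ∈ W, ((P.filter fun u => c u = w).card) ^ 2
        = ∑ w ∈ W, ((P.filter fun u => c u = w) ×ˢ (P.filter fun u => c u = w)).card := by
          refine sum_congr rfl fun w _ => ?_
          rw [card_product, sq]
      _ = (W.biUnion fun w => (P.filter fun u => c u = w) ×ˢ (P.filter fun u => c u = w)).card := by
          rw [card_biUnion]
          intro w _ w' _ hww'
          rw [Function.onFun, disjoint_left]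
          intro u hu hu'
          have h3 := (mem_filter.1 (mem_product.1 hu).1).2
          have h4 := (mem_filter.1 (mem_product.1 hu').1).2
          exact hww' (h3.symm.trans h4)
      _ ≤ R.card := by
          refine card_le_card fun u hu => ?_
          obtain ⟨w, _, hw⟩ := mem_biUnion.1 hu
          have h3 := mem_filter.1 (mem_product.1 hw).1
          have h4 := mem_filter.1 (mem_product.1 hw).2
          exact hR u.1 h3.1 u.2 h4.1 (h3.2.trans h4.2.symm)
  have h3 : (∑ w ∈ W, ((P.filter fun u => c u = w).card : ℝ)) ^ 2 ≤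
      W.card * ∑ w ∈ W, ((P.filter fun u => c u = w).card : ℝ) ^ 2 := sq_sum_le_card_mul_sum_sq
  rw [h1]
  push_cast
  refine h3.trans (mul_le_mul_of_nonneg_left ?_ (Nat.cast_nonneg _))
  exact_mod_cast h2

/-- small energy implies that the pairs are spread -/
theorem spread_of_energy {p : ℕ} [Fact p.Prime] (ε : ℝ) (hp2 : 2 ≤ (p : ℝ) ^ ε) (hε : 0 < ε)
    (M : Matrix (Fin 2) (Fin 2) (ZMod p)) (X : Finset (ZMod p))
    (hE : (energy M X : ℝ) ≤ (p : ℝ) ^ (-(1 / 2) - 4 * ε) * (X.card : ℝ) ^ 4) :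
    Spread p ε M X X := by
  classical
  intro W hW
  have hp0 : (0 : ℝ) < p := by exact_mod_cast (Fact.out : p.Prime).pos
  have hpR : (1 : ℝ) ≤ p := by exact_mod_cast (Fact.out : p.Prime).one_lt.le
  set c : ZMod p × ZMod p → Option (ZMod p) := fun u =>
    if u.1 = u.2 then none else some (form M u.1 u.2 * (u.1 - u.2)⁻¹) with hc
  set W' : Finset (Option (ZMod p)) := insert none (W.image some) with hW'
  set R : Finset ((ZMod p × ZMod p) × (ZMod p × ZMod p)) :=
    ((X ×ˢ X) ×ˢ (X ×ˢ X)).filter fun v =>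
      (v.1.1 - v.1.2) * form M v.2.1 v.2.2 = (v.2.1 - v.2.2) * form M v.1.1 v.1.2 with hR
  have hRE : R.card = energy M X := by
    unfold energy
    rw [← Set.ncard_coe_finset]
    congr 1
    ext v
    rw [hR, mem_coe, mem_filter, mem_product, mem_product, mem_product, Set.mem_ofPred_eq]
    tauto
  have h1 := classes (X ×ˢ X) c W' R (by
    intro u hu v hv huv
    rw [hR, mem_filter]
    refine ⟨mem_product.2 ⟨hu, hv⟩, ?_⟩
    rw [hc] at huv
    simp only at huv
    show (u.1 - u.2) * form M v.1 v.2 = (v.1 - v.2) * form M u.1 u.2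
    by_cases h1 : u.1 = u.2
    · by_cases h2 : v.1 = v.2
      · rw [h1, h2, sub_self, sub_self, zero_mul, zero_mul]
      · rw [if_pos h1, if_neg h2] at huv
        cases huv
    · by_cases h2 : v.1 = v.2
      · rw [if_pos h2, if_neg h1] at huv
        cases huv
      · rw [if_neg h1, if_neg h2] at huv
        have h3 := Option.some.inj huv
        have h4 : u.1 - u.2 ≠ 0 := sub_ne_zero.2 h1
        have h5 : v.1 - v.2 ≠ 0 := sub_ne_zero.2 h2
        field_simp at h3
        linear_combination -h3)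
  have h2 : ({u : ZMod p × ZMod p | u.1 ∈ X ∧ u.2 ∈ X ∧
      (u.1 = u.2 ∨ form M u.1 u.2 * (u.1 - u.2)⁻¹ ∈ W)}.ncard : ℝ) ≤
      ((X ×ˢ X).filter fun u => c u ∈ W').card := by
    rw [← Set.ncard_coe_finset]
    refine Nat.cast_le.2 (Set.ncard_le_ncard ?_ (Finset.finite_toSet _))
    rintro u ⟨hu1, hu2, hu3⟩
    rw [mem_coe, mem_filter]
    refine ⟨mem_product.2 ⟨hu1, hu2⟩, ?_⟩
    rw [hc]
    simp only
    by_cases h1 : u.1 = u.2
    · rw [if_pos h1, hW']
      exact mem_insert_self _ _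
    · rw [if_neg h1, hW']
      refine mem_insert_of_mem (mem_image_of_mem _ ?_)
      rcases hu3 with h | h
      · exact absurd h h1
      · exact h
  have h3 : (W'.card : ℝ) ≤ 2 * (p : ℝ) ^ (1 / 2 + ε) := by
    have h4 : W'.card ≤ W.card + 1 := by
      rw [hW']
      refine (card_insert_le _ _).trans ?_
      exact Nat.add_le_add_right card_image_le 1
    have h5 : (1 : ℝ) ≤ (p : ℝ) ^ (1 / 2 + ε) := Real.one_le_rpow hpR (by positivity)
    have h6 : (W'.card : ℝ) ≤ W.card + 1 := by exact_mod_cast h4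
    linarith
  refine h2.trans (le_of_sq_le_sq ?_ (by positivity))
  calc (((X ×ˢ X).filter fun u => c u ∈ W').card : ℝ) ^ 2 ≤ W'.card * R.card := h1
    _ ≤ (2 * (p : ℝ) ^ (1 / 2 + ε)) * ((p : ℝ) ^ (-(1 / 2) - 4 * ε) * (X.card : ℝ) ^ 4) := by
        rw [hRE]
        exact mul_le_mul h3 hE (Nat.cast_nonneg _) (by positivity)
    _ ≤ ((p : ℝ) ^ ε * (p : ℝ) ^ (1 / 2 + ε)) * ((p : ℝ) ^ (-(1 / 2) - 4 * ε) * (X.card : ℝ) ^ 4) :=
        mul_le_mul_of_nonneg_right (mul_le_mul_of_nonneg_right hp2 (by positivity)) (by positivity)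
    _ = ((p : ℝ) ^ (-ε) * (X.card * X.card)) ^ 2 := by
        have e1 : ((p : ℝ) ^ (-ε)) ^ 2 = (p : ℝ) ^ (ε + (1 / 2 + ε) + (-(1 / 2) - 4 * ε)) := by
          rw [← Real.rpow_natCast, ← Real.rpow_mul hp0.le]
          congr 1
          push_cast
          ring
        rw [mul_pow ((p : ℝ) ^ (-ε)), e1, ← mul_assoc, ← Real.rpow_add hp0, ← Real.rpow_add hp0]
        ring

/-- For every `ε > 0` there are `τ > 0` and `p₀` such that for all primes `p ≥ p₀`, all nonprincipal
`χ` modulo `p` and all `2 × 2` matrices `M` over the field with `p` elements the following holds.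
Let `D = ⊔ A i` with sets `A i` popular for `T i` and `X i`, and let the pairs `X i × X j` be spread
for all `(i, j)` outside a set `E` of pairs with `∑ |A i| |A j| ≤ p ^ (- ε) |D| ^ 2`. Then the forms
over `D × D` with the kernel `χ (a - b)` have a power saving, and all dense subsets of `D` and their
images under fractional linear maps satisfy the inequality of the question. A set `X` with
`energy M X ≤ p ^ (- 1 / 2 - 4 ε) |X| ^ 4` has spread pairs. -/
theorem result (ε : ℝ) (hε : 0 < ε) : ∃ τ : ℝ, 0 < τ ∧ ∃ p₀ : ℕ,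
    ∀ p : ℕ, p.Prime → p₀ ≤ p → ∀ χ : DirichletCharacter ℂ p, χ ≠ 1 →
    ∀ M : Matrix (Fin 2) (Fin 2) (ZMod p),
    (∀ X : Finset (ZMod p), (energy M X : ℝ) ≤ (p : ℝ) ^ (-(1 / 2) - 4 * ε) * (X.card : ℝ) ^ 4 →
      Spread p ε M X X) ∧
    ∀ (n : ℕ) (T : Fin n → Finset (ZMod p × ZMod p)) (X A : Fin n → Finset (ZMod p))
      (D : Finset (ZMod p)) (E : Finset (Fin n × Fin n)),
      (∀ i, Popular p ε τ M (T i) (X i) (A i)) → (∀ i j, i ≠ j → Disjoint (A i) (A j)) →
      D = Finset.univ.biUnion A → (∀ i j, (i, j) ∉ E → Spread p ε M (X i) (X j)) →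
      ∑ e ∈ E, ((A e.1).card : ℝ) * (A e.2).card ≤ (p : ℝ) ^ (-ε) * (D.card * D.card) →
      (∀ f g : ZMod p → ℂ, ‖∑ a ∈ D, ∑ b ∈ D, f a * g b * χ (a - b)‖ ≤
        (p : ℝ) ^ (-τ) * D.card * (Real.sqrt (∑ a ∈ D, ‖f a‖ ^ 2) * Real.sqrt (∑ b ∈ D, ‖g b‖ ^ 2))) ∧
      ∀ A' : Finset (ZMod p), A'.Nonempty → A' ⊆ D → (D.card : ℝ) ≤ (p : ℝ) ^ τ * A'.card →
        ∀ α β γ δ : ZMod p, α * δ - β * γ ≠ 0 → (∀ a ∈ A', γ * a + δ ≠ 0) →
          ∀ C : Finset (ZMod p), C = (A'.image fun a => (α * a + β) * (γ * a + δ)⁻¹) →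
            ‖∑ x ∈ C, ∑ y ∈ C, χ (x - y)‖ < (C.card : ℝ) ^ (2 - τ) := by
  classical
  obtain ⟨τ₁, hτ₁, p₁, h⟩ := Pool.Agent.H424.PJ.main ε hε
  set σ : ℝ := min τ₁ ε with hσ
  have hσ0 : 0 < σ := lt_min hτ₁ hε
  have hσ1 : σ ≤ τ₁ := min_le_left _ _
  have hσε : σ ≤ ε := min_le_right _ _
  obtain ⟨p₂, hp₂⟩ := Pool.Agent.TH7.PG.large 2 ε hε
  obtain ⟨p₃, hp₃⟩ := Pool.Agent.TH7.PG.large 2 (σ / 2) (by positivity)
  obtain ⟨p₄, hp₄⟩ := Pool.Agent.TH7.PG.large 3 (σ / 2 / 12) (by positivity)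
  refine ⟨σ / 32, by positivity, p₁ + p₂ + p₃ + p₄, ?_⟩
  intro p hpp hp χ hχ M
  have hF : Fact p.Prime := ⟨hpp⟩
  have hp2 := hp₂ p (by omega)
  have hp3 := hp₃ p (by omega)
  have hp4 := hp₄ p (by omega)
  have hp1 : (1 : ℝ) < p := by exact_mod_cast hpp.one_lt
  have hpR : (1 : ℝ) ≤ p := hp1.le
  have hp0 : (0 : ℝ) < p := by linarith
  refine ⟨fun X hE => spread_of_energy ε hp2 hε M X hE, ?_⟩
  intro n T X A D E hA hdisj hD hsp hE
  set α := M 0 0 with hα
  set β := M 0 1 with hβ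
  set γ := M 1 0 with hγ
  set δ := M 1 1 with hδ
  -- translation of the definitions
  have hgood : ∀ i, Pool.Agent.H424.PJ.Good (α + δ) (α * δ - β * γ) (T i) := by
    intro i
    refine ⟨fun g hg => ?_, fun g hg g' hg' hne => ?_⟩
    · have h1 := (hA i).det g hg
      rw [Matrix.det_fin_two] at h1
      unfold mat at h1
      simp only [Matrix.add_apply, Matrix.smul_apply, smul_eq_mul, Matrix.one_apply_eq, mul_one,
        Matrix.one_apply_ne (show (0 : Fin 2) ≠ 1 by decide),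
        Matrix.one_apply_ne (show (1 : Fin 2) ≠ 0 by decide), mul_zero, zero_add] at h1
      unfold Pool.Agent.H424.PJ.dtm
      intro h2
      apply h1
      rw [← h2]
      ring
    · unfold Pool.Agent.H424.PJ.cf
      exact sub_ne_zero.2 ((hA i).indep g hg g' hg' hne)
  have hrep : ∀ i a, reps M (T i) (X i) a =
      (Pool.Agent.H424.PJ.Rep α β γ δ (T i) (X i) a).card := by
    intro i a
    unfold reps Pool.Agent.H424.PJ.Rep
    rw [← Set.ncard_coe_finset]
    congr 1
    ext u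
    rw [mem_coe, mem_filter, mem_product, Set.mem_ofPred_eq]
    unfold Sends mat Pool.Agent.H424.PJ.nm Pool.Agent.H424.PJ.dn
    simp only [Matrix.add_apply, Matrix.smul_apply, smul_eq_mul, Matrix.one_apply_eq, mul_one,
        Matrix.one_apply_ne (show (0 : Fin 2) ≠ 1 by decide),
        Matrix.one_apply_ne (show (1 : Fin 2) ≠ 0 by decide), mul_zero, zero_add]
    rw [and_assoc]
    have e1 : u.1.2 * M 1 0 * u.2 + (u.1.1 + u.1.2 * M 1 1) = u.1.1 + u.1.2 * (γ * u.2 + δ) := by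
      rw [hγ, hδ]; ring
    have e2 : (u.1.1 + u.1.2 * M 0 0) * u.2 + u.1.2 * M 0 1 = u.1.1 * u.2 + u.1.2 * (α * u.2 + β) := by
      rw [hα, hβ]; ring
    rw [e1, e2]
  have hconc : ∀ i j W, {u : ZMod p × ZMod p | u.1 ∈ X i ∧ u.2 ∈ X j ∧
      (u.1 = u.2 ∨ form M u.1 u.2 * (u.1 - u.2)⁻¹ ∈ W)}.ncard =
      (Pool.Agent.H424.PJ.conc α β γ δ (X i) (X j) W).card := by
    intro i j W
    unfold Pool.Agent.H424.PJ.conc
    rw [← Set.ncard_coe_finset]
    congr 1
    ext u
    rw [mem_coe, mem_filter, mem_product, Set.mem_ofPred_eq]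
    unfold form Pool.Agent.H424.PJ.ivr
    rw [and_assoc, div_eq_mul_inv]
  have hloc : ∀ i j, (i, j) ∉ E → ∀ f g : ZMod p → ℂ, (∀ x, ‖f x‖ ≤ 1) → (∀ x, ‖g x‖ ≤ 1) →
      ‖∑ a ∈ A i, ∑ b ∈ A j, f a * g b * χ (a - b)‖ ≤
        (p : ℝ) ^ (-σ) * (((A i).card : ℝ) * (A j).card) := by
    intro i j hij f g hf hg
    obtain ⟨ρ, hρ, hXi, hri⟩ := (hA i).popular
    obtain ⟨ρ', hρ', hXj, hrj⟩ := (hA j).popular
    have hτle : (p : ℝ) ^ (σ / 32) ≤ (p : ℝ) ^ τ₁ :=
      Real.rpow_le_rpow_of_exponent_le hpR (by linarith)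
    have h1 := h p (by omega) χ hχ α β γ δ (T i) (T j) (X i) (X j) (A i) (A j) ρ ρ'
      (hgood i) (hgood j) (hA i).large (hA j).large hρ hρ'
      (fun a ha => by rw [← hrep]; exact hri a ha) (fun a ha => by rw [← hrep]; exact hrj a ha)
      (hXi.trans (mul_le_mul_of_nonneg_left
        (mul_le_mul_of_nonneg_right hτle (Nat.cast_nonneg _)) hρ.le))
      (hXj.trans (mul_le_mul_of_nonneg_left
        (mul_le_mul_of_nonneg_right hτle (Nat.cast_nonneg _)) hρ'.le))
      (fun W hW => by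
        have h2 := hsp i j hij W hW
        rw [hconc] at h2
        exact h2) f g
    refine h1.trans ?_
    have hsq : ∀ (B : Finset (ZMod p)) (F : ZMod p → ℂ), (∀ x, ‖F x‖ ≤ 1) →
        Real.sqrt B.card * Real.sqrt (∑ b ∈ B, ‖F b‖ ^ 2) ≤ B.card := by
      intro B F hF1
      have h3 : ∑ b ∈ B, ‖F b‖ ^ 2 ≤ B.card := by
        calc ∑ b ∈ B, ‖F b‖ ^ 2 ≤ ∑ _b ∈ B, (1 : ℝ) :=
              sum_le_sum fun b _ => pow_le_one₀ (norm_nonneg _) (hF1 b)
          _ = B.card := by rw [sum_const, nsmul_eq_mul, mul_one]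
      calc Real.sqrt B.card * Real.sqrt (∑ b ∈ B, ‖F b‖ ^ 2)
          ≤ Real.sqrt B.card * Real.sqrt B.card :=
            mul_le_mul_of_nonneg_left (Real.sqrt_le_sqrt h3) (Real.sqrt_nonneg _)
        _ = B.card := Real.mul_self_sqrt (Nat.cast_nonneg _)
    have h4 := hsq (A i) f hf
    have h5 := hsq (A j) g hg
    calc (p : ℝ) ^ (-τ₁) * ((Real.sqrt (A i).card * Real.sqrt (A j).card) *
          (Real.sqrt (∑ a ∈ A i, ‖f a‖ ^ 2) * Real.sqrt (∑ b ∈ A j, ‖g b‖ ^ 2)))
        = (p : ℝ) ^ (-τ₁) * ((Real.sqrt (A i).card * Real.sqrt (∑ a ∈ A i, ‖f a‖ ^ 2)) *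
          (Real.sqrt (A j).card * Real.sqrt (∑ b ∈ A j, ‖g b‖ ^ 2))) := by ring
      _ ≤ (p : ℝ) ^ (-σ) * (((A i).card : ℝ) * (A j).card) := by
          refine mul_le_mul ?_ (mul_le_mul h4 h5 (by positivity) (by positivity)) (by positivity)
            (by positivity)
          exact Real.rpow_le_rpow_of_exponent_le hpR (by linarith)
  have htriv : ∀ i j, ∀ f g : ZMod p → ℂ, (∀ x, ‖f x‖ ≤ 1) → (∀ x, ‖g x‖ ≤ 1) →
      ‖∑ a ∈ A i, ∑ b ∈ A j, f a * g b * χ (a - b)‖ ≤ ((A i).card : ℝ) * (A j).card := by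
    intro i j f g hf hg
    calc ‖∑ a ∈ A i, ∑ b ∈ A j, f a * g b * χ (a - b)‖
        ≤ ∑ a ∈ A i, ∑ b ∈ A j, (1 : ℝ) := by
          refine norm_sum_le_of_le _ fun a _ => norm_sum_le_of_le _ fun b _ => ?_
          rw [norm_mul, norm_mul]
          exact mul_le_one₀ (mul_le_one₀ (hf a) (norm_nonneg _) (hg b)) (norm_nonneg _)
            (χ.norm_le_one _)
      _ = ((A i).card : ℝ) * (A j).card := by
          simp only [sum_const, nsmul_eq_mul, mul_one]
  have hcard : (D.card : ℝ) = ∑ i, ((A i).card : ℝ) := by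
    rw [hD, card_biUnion fun i _ j _ hij => hdisj i j hij]
    push_cast
    rfl
  have hpd : (↑(univ : Finset (Fin n)) : Set (Fin n)).PairwiseDisjoint A :=
    fun i _ j _ hij => hdisj i j hij
  have hsum : ∀ F : ZMod p → ℂ, ∑ a ∈ D, F a = ∑ i, ∑ a ∈ A i, F a := by
    intro F
    rw [hD]
    exact sum_biUnion hpd
  have hbdd : ∀ f g : ZMod p → ℂ, (∀ x, ‖f x‖ ≤ 1) → (∀ x, ‖g x‖ ≤ 1) →
      ‖∑ a ∈ D, ∑ b ∈ D, f a * g b * χ (a - b)‖ ≤ (p : ℝ) ^ (-(σ / 2)) * (D.card * D.card) := by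
    intro f g hf hg
    have e1 : ∑ a ∈ D, ∑ b ∈ D, f a * g b * χ (a - b) =
        ∑ e : Fin n × Fin n, ∑ a ∈ A e.1, ∑ b ∈ A e.2, f a * g b * χ (a - b) := by
      rw [hsum, Fintype.sum_prod_type]
      refine sum_congr rfl fun i _ => ?_
      have e2 : ∀ a, ∑ b ∈ D, f a * g b * χ (a - b) =
          ∑ j, ∑ b ∈ A j, f a * g b * χ (a - b) := fun a => hsum _
      simp only [e2]
      exact sum_comm
    rw [e1]
    have h6 : ∀ e : Fin n × Fin n, ‖∑ a ∈ A e.1, ∑ b ∈ A e.2, f a * g b * χ (a - b)‖ ≤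
        (p : ℝ) ^ (-σ) * (((A e.1).card : ℝ) * (A e.2).card) +
          if e ∈ E then ((A e.1).card : ℝ) * (A e.2).card else 0 := by
      intro e
      by_cases he : e ∈ E
      · rw [if_pos he]
        have := htriv e.1 e.2 f g hf hg
        have h7 : 0 ≤ (p : ℝ) ^ (-σ) * (((A e.1).card : ℝ) * (A e.2).card) := by positivity
        linarith
      · rw [if_neg he, add_zero]
        exact hloc e.1 e.2 he f g hf hg
    calc ‖∑ e : Fin n × Fin n, ∑ a ∈ A e.1, ∑ b ∈ A e.2, f a * g b * χ (a - b)‖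
        ≤ ∑ e : Fin n × Fin n, ((p : ℝ) ^ (-σ) * (((A e.1).card : ℝ) * (A e.2).card) +
          if e ∈ E then ((A e.1).card : ℝ) * (A e.2).card else 0) :=
          norm_sum_le_of_le _ fun e _ => h6 e
      _ = (p : ℝ) ^ (-σ) * (D.card * D.card) +
            ∑ e ∈ E, ((A e.1).card : ℝ) * (A e.2).card := by
          rw [sum_add_distrib, ← mul_sum, Fintype.sum_prod_type]
          congr 1
          · congr 1
            rw [hcard, sum_mul_sum]
          · rw [← sum_filter]
            refine sum_congr ?_ fun _ _ => rfl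
            ext e
            simp
      _ ≤ (p : ℝ) ^ (-σ) * (D.card * D.card) + (p : ℝ) ^ (-ε) * (D.card * D.card) := by
          linarith
      _ ≤ 2 * (p : ℝ) ^ (-σ) * (D.card * D.card) := by
          have h8 : (p : ℝ) ^ (-ε) ≤ (p : ℝ) ^ (-σ) :=
            Real.rpow_le_rpow_of_exponent_le hpR (by linarith)
          have h9 := mul_le_mul_of_nonneg_right h8
            (show (0 : ℝ) ≤ (D.card : ℝ) * D.card by positivity)
          linarith
      _ ≤ (p : ℝ) ^ (σ / 2) * (p : ℝ) ^ (-σ) * (D.card * D.card) :=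
          mul_le_mul_of_nonneg_right (mul_le_mul_of_nonneg_right hp3 (by positivity))
            (by positivity)
      _ = (p : ℝ) ^ (-(σ / 2)) * (D.card * D.card) := by
          rw [← Real.rpow_add hp0]
          congr 2
          ring
  have hall : ∀ f g : ZMod p → ℂ, ‖∑ a ∈ D, ∑ b ∈ D, f a * g b * χ (a - b)‖ ≤
      (p : ℝ) ^ (-(σ / 8)) * D.card *
        (Real.sqrt (∑ a ∈ D, ‖f a‖ ^ 2) * Real.sqrt (∑ b ∈ D, ‖g b‖ ^ 2)) := by
    intro f g
    have h1 := Pool.Agent.TH7.PG.linf_to_l2_pow D D (fun a b => χ (a - b))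
      (fun a b => χ.norm_le_one _) p (σ / 2) hpR hp4 hbdd f g
    have e1 : σ / 2 / 4 = σ / 8 := by ring
    rw [e1, Real.mul_self_sqrt (Nat.cast_nonneg _), ← mul_assoc] at h1
    exact h1
  refine ⟨fun f g => ?_, fun A' hne hA' hdense α β γ δ hdet hpole C hC => ?_⟩
  · refine (hall f g).trans (mul_le_mul_of_nonneg_right (mul_le_mul_of_nonneg_right ?_
      (Nat.cast_nonneg _)) (by positivity))
    exact Real.rpow_le_rpow_of_exponent_le hpR (by linarith)
  · obtain ⟨h1, h2⟩ := Pool.Agent.Y881.BI.mob_sum χ A' ((p : ℝ) ^ (-(σ / 8)) * D.card)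
      (by positivity) (Pool.Agent.Y881.BI.form_sub D D A' hA' hA' (fun a b => χ (a - b)) _ hall)
      α β γ δ hdet hpole C hC
    have hA'c : (0 : ℝ) < A'.card := by exact_mod_cast hne.card_pos
    have hA'p : (A'.card : ℝ) ≤ p := by
      have := card_le_univ A'
      rw [ZMod.card] at this
      exact_mod_cast this
    rw [h1]
    refine lt_of_le_of_lt h2 ?_
    have h3 : (A'.card : ℝ) ^ (σ / 32) ≤ (p : ℝ) ^ (σ / 32) :=
      Real.rpow_le_rpow hA'c.le hA'p (by positivity)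
    have h4 : (A'.card : ℝ) ^ (2 - σ / 32) = (A'.card : ℝ) ^ 2 / (A'.card : ℝ) ^ (σ / 32) := by
      rw [Real.rpow_sub hA'c, Real.rpow_two]
    rw [h4, lt_div_iff₀ (by positivity)]
    calc (p : ℝ) ^ (-(σ / 8)) * D.card * A'.card * (A'.card : ℝ) ^ (σ / 32)
        ≤ (p : ℝ) ^ (-(σ / 8)) * ((p : ℝ) ^ (σ / 32) * A'.card) * A'.card *
            (p : ℝ) ^ (σ / 32) := by
          refine mul_le_mul ?_ h3 (by positivity) (by positivity)
          refine mul_le_mul_of_nonneg_right ?_ hA'c.le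
          exact mul_le_mul_of_nonneg_left hdense (by positivity)
      _ = (p : ℝ) ^ (-(σ / 8) + σ / 32 + σ / 32) * (A'.card : ℝ) ^ 2 := by
          rw [Real.rpow_add hp0, Real.rpow_add hp0]
          ring
      _ < 1 * (A'.card : ℝ) ^ 2 := by
          refine mul_lt_mul_of_pos_right ?_ (by positivity)
          exact Real.rpow_lt_one_of_one_lt_of_neg hp1 (by linarith)
      _ = _ := one_mul _

end Pool.Agent.Results.MP_cb27ba_nt.ProjectiveOrbits
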