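import Pool.Agent.H424.QP.Cover

/-!
# Unions of quadratic progressions

Power saving for the difference sums over every set `A` which is evenly covered by (for instance
is a disjoint union of) progressions `α n² + β n + γ` with at least `N` terms each, with arbitrary
and unrelated coefficients, as soon as `|A| N² ≥ p^(1+ε)`; no other condition on `A` and no
condition on the size of `A` if `N ≥ p^(1/3+ε)`.

Outline.  The difference sum is the sum over the progressions `P` covering `A` and over `b ∈ A` of
`∑_{n} χ(α n² + β n + γ - b)`; for each progression one completes the square and shifts `n` by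
products `u l`; distinct `b` give distinct discriminants, and the moments of
`∑_{l < L} χ((X + l)² - Y)` over all `(X, Y)` have square root cancellation in both variables by
Weil's bound over the fields with `p` and with `p²` elements.
-/

set_option autoImplicit false

namespace Pool.Agent.Results.MP_cb27ba_nt.QuadraticUnions

open Finset

/-- `A` is evenly covered by quadratic progressions with at least `N` terms: there are finitely
many progressions `α i * n ^ 2 + β i * n + γ i`, `0 ≤ n < M i`, with `α i ≠ 0` and `M i ≥ N`, and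
`m ≥ 1`, such that every element of `A` is the value of exactly `m` pairs `(i, n)` and no other
residue is a value. -/
def QuadCovered {p : ℕ} (N : ℕ) (A : Finset (ZMod p)) : Prop :=
  ∃ (m : ℕ) (ι : Type) (s : Finset ι) (α β γ : ι → ZMod p) (M : ι → ℕ), 0 < m ∧
    (∀ i ∈ s, α i ≠ 0 ∧ N ≤ M i) ∧
    ∀ a : ZMod p, ∑ i ∈ s, ((range (M i)).filter fun n : ℕ =>
      α i * (n : ZMod p) ^ 2 + β i * n + γ i = a).card = if a ∈ A then m else 0

theorem result :
    ∀ ε : ℝ, 0 < ε → ∃ τ : ℝ, 0 < τ ∧ ∃ p₀ : ℕ, ∀ p : ℕ, p.Prime → p₀ ≤ p →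
      ∀ χ : DirichletCharacter ℂ p, χ ≠ 1 → ∀ (N : ℕ) (A : Finset (ZMod p)),
        QuadCovered N A →
        (p : ℝ) ^ ε ≤ A.card → (p : ℝ) ^ (1 + ε) ≤ A.card * (N : ℝ) ^ 2 →
          ∑ b ∈ A, ‖∑ a ∈ A, χ (a - b)‖ < (A.card : ℝ) ^ (2 - τ) := by
  intro ε hε
  obtain ⟨η, hη, P, hP⟩ := Pool.Agent.H424.QP.covered_set ε hε
  refine ⟨η / 2, by positivity, P + 2, fun p hp hPp χ hχ N A hA hA1 hAN => ?_⟩
  have : Fact p.Prime := ⟨hp⟩
  have : NeZero p := ⟨hp.ne_zero⟩
  have hp2 : (1 : ℝ) < p := by exact_mod_cast (by omega : 1 < p)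
  have hp0 : (0 : ℝ) < p := by linarith
  have h1 := hP p (by omega) χ hχ N A (A.image fun a => -a) hA
    (by rw [card_image_of_injective _ neg_injective]; exact hA1)
    (by rw [card_image_of_injective _ neg_injective]; exact hAN)
  rw [card_image_of_injective _ neg_injective, sum_image fun _ _ _ _ h => neg_injective h] at h1
  simp only [← sub_eq_add_neg] at h1
  refine h1.trans_lt ?_
  have hA0 : (1 : ℝ) < A.card := lt_of_lt_of_le (Real.one_lt_rpow hp2 hε) hA1
  have hA00 : (0 : ℝ) < A.card := by linarith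
  have hAp : (A.card : ℝ) ≤ p := by
    have h2 := Finset.card_le_univ A
    rw [ZMod.card] at h2
    exact_mod_cast h2
  have h3 : (p : ℝ) ^ (-η) ≤ (A.card : ℝ) ^ (-η) :=
    Real.rpow_le_rpow_of_nonpos hA00 hAp (by linarith)
  have h4 : (A.card : ℝ) ^ (-η) < (A.card : ℝ) ^ (-(η / 2)) :=
    Real.rpow_lt_rpow_of_exponent_lt hA0 (by linarith)
  calc (p : ℝ) ^ (-η) * (A.card * A.card) < (A.card : ℝ) ^ (-(η / 2)) * (A.card * A.card) :=
        mul_lt_mul_of_pos_right (h3.trans_lt h4) (by positivity)
    _ = (A.card : ℝ) ^ (2 - η / 2) := by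
        rw [sub_eq_add_neg, Real.rpow_add hA00, Real.rpow_two]
        ring

end Pool.Agent.Results.MP_cb27ba_nt.QuadraticUnions
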